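import Pool.Agent.H882R2.ET0LOne

/-!
# The collapse threshold of the `k`-restricted ET0L hierarchy is `2`

ET0L systems, their languages and `k`-restricted systems are defined in
`Pool.Agent.H882R2.ET0LDefs`.
-/

set_option autoImplicit false

open Pool.Agent.H882R2.ET0L

namespace Pool.Agent.Results.MP_4de4a9_lc.ThresholdTwo

/-- The family of all languages over the alphabet `T` generated by `k`-restricted ET0L systems
with terminal alphabet `T`. -/
def Fam (T : Type) (k : ℕ) : Set (Set (List T)) := {L | ∃ S : Sys T, S.Restricted k ∧ S.lang = L}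

/-- The collapse threshold: the least positive `l` such that the families for `k` and `k + 1`
coincide for all `k ≥ l`. -/
noncomputable def threshold : ℕ :=
  sInf {l : ℕ | 1 ≤ l ∧ ∀ k, l ≤ k → ∀ T : Type, Fam T k = Fam T (k + 1)}

theorem Fam_mono {T : Type} {k l : ℕ} (h : k ≤ l) : Fam T k ⊆ Fam T l := by
  rintro L ⟨S, hS, rfl⟩
  exact ⟨S, fun t ht => (hS t ht).trans h, rfl⟩

theorem Fam_eq (T : Type) (k : ℕ) (hk : 2 ≤ k) : Fam T k = Fam T (k + 1) := by
  refine Set.Subset.antisymm (Fam_mono (Nat.le_succ k)) ?_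
  rintro L ⟨S, _, rfl⟩
  exact Fam_mono hk (exists_two S)

theorem Fam_ne : Fam (Fin 3) 1 ≠ Fam (Fin 3) 2 := by
  intro h
  have h1 : LL ∈ Fam (Fin 3) 2 := by
    rw [← sysL_lang]
    exact exists_two sysL
  rw [← h] at h1
  obtain ⟨S, hS, hL⟩ := h1
  exact not_one S hS hL

/-- The families coincide for all `k ≥ 2`, and the collapse threshold is `2`. -/
theorem result :
    (∀ (T : Type) (k : ℕ), 2 ≤ k → Fam T k = Fam T (k + 1)) ∧ threshold = 2 := by
  have hmem : 2 ∈ {l : ℕ | 1 ≤ l ∧ ∀ k, l ≤ k → ∀ T : Type, Fam T k = Fam T (k + 1)} :=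
    ⟨by norm_num, fun k hk T => Fam_eq T k hk⟩
  refine ⟨Fam_eq, le_antisymm (Nat.sInf_le hmem) (le_csInf ⟨2, hmem⟩ ?_)⟩
  rintro l ⟨h1, h2⟩
  by_contra hlt
  have : l = 1 := by omega
  subst this
  exact Fam_ne (h2 1 le_rfl (Fin 3))

end Pool.Agent.Results.MP_4de4a9_lc.ThresholdTwo
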